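import Pool.Agent.H87.KM7.DEAD

/-!
# The local label potential: row (FIL)
-/

set_option autoImplicit false

namespace Pool.KM7

open Finset Real
open Pool.Agent.H49.Ent Pool.Agent.H32.Dense Pool.STK Pool.KA

namespace Fil

theorem CH_fst {Ω E S T : Type} [Fintype Ω] [Fintype E] {p : Ω → ℝ} {p' : Ω × E → ℝ}
    (hm : ∀ ω, ∑ e, p' (ω, e) = p ω) (X : Ω → S) (Y : Ω → T) :
    CH p' (fun w => X w.1) (fun w => Y w.1) = CH p X Y := by
  classical
  have h : ∀ ω, (∑ w : Ω × E, if w.1 = ω then p' w else 0) = p ω := by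
    intro ω
    rw [Fintype.sum_prod_type, Finset.sum_eq_single ω]
    · simp only [if_true]
      exact hm ω
    · intro b _ hb
      simp only [if_neg hb, Finset.sum_const_zero]
    · intro h
      exact absurd (Finset.mem_univ ω) h
  have h' : ∀ ω, (open Classical in ∑ w : Ω × E, if w.1 = ω then p' w else 0) = p ω := by
    intro ω
    rw [← h ω]
  unfold CH
  rw [H_eq_of_marginal (q := p') (p := p) (fun w : Ω × E => w.1) h' Y,
    H_eq_of_marginal (q := p') (p := p) (fun w : Ω × E => w.1) h' (fun ω => (X ω, Y ω))]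

theorem fll_sum {L : ℕ} (G : Fam 2 L) (s : ℕ) (ω : G.Ω) :
    ∑ _e : Fin (2 ^ s), G.p ω / 2 ^ s = G.p ω := by
  rw [Finset.sum_const, Finset.card_univ, Fintype.card_fin, nsmul_eq_mul]
  push_cast
  field_simp

theorem log_two_pow' (s : ℕ) :
    Real.log (2 * (2 * (2 : ℝ) ^ s + 1) + 1) ≤ s * Real.log 2 + Real.log 7 := by
  have h1 : (1 : ℝ) ≤ 2 ^ s := one_le_pow₀ (by norm_num)
  have h2 : 2 * (2 * (2 : ℝ) ^ s + 1) + 1 ≤ 2 ^ s * 7 := by linarith
  have h3 := Real.log_le_log (by positivity) h2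
  rwa [Real.log_mul (by positivity) (by norm_num), Real.log_pow] at h3

theorem div_mod_eq {s a b : ℕ} {e f : Fin (2 ^ s)} (h : a * 2 ^ s + e = b * 2 ^ s + f) :
    a = b ∧ e = f := by
  have h1 := e.2
  have h2 := f.2
  have h3 : a = b := by
    have : (a * 2 ^ s + (e : ℕ)) / 2 ^ s = (b * 2 ^ s + (f : ℕ)) / 2 ^ s := by rw [h]
    rwa [Nat.mul_comm, Nat.mul_add_div (by positivity), Nat.div_eq_of_lt h1, add_zero,
      Nat.mul_comm, Nat.mul_add_div (by positivity), Nat.div_eq_of_lt h2, add_zero] at this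
  refine ⟨h3, ?_⟩
  rw [h3] at h
  exact Fin.ext (Nat.add_left_cancel h)

/-- The coordinates of the new position. -/
theorem fll_co {L : ℕ} (G : Fam 2 L) (s : ℕ) (q : Sec) (w : G.Ω × Fin (2 ^ s)) (i : Fin 2) :
    q.co ((fll G s).x w) i = q.co (G.x w.1) i +
      ((w.2 : ℕ) : ℝ) / 2 ^ s * q.co (fun i => G.d w.1 i / 2 ^ L) i := by
  have e1 : (fll G s).x w = fun i => G.x w.1 i -
      (-(((w.2 : ℕ) : ℝ) / 2 ^ s)) * (G.d w.1 i / 2 ^ L) := by
    funext j
    change G.u w.1 j + ((G.T w.1 * 2 ^ s + w.2 : ℕ) : ℝ) / 2 ^ (L + s) * G.d w.1 j =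
      G.u w.1 j + (G.T w.1 : ℝ) / 2 ^ L * G.d w.1 j - _
    push_cast
    rw [pow_add]
    field_simp
    ring
  rw [e1, Dead.co_sub, Dead.co_smul]
  ring

end Fil

open Fil Dead in
/-- **(FIL)** -/
theorem fil_thm : FILStmt := by
  refine ⟨Real.log 7 + Real.log 15, ?_, ?_⟩
  · have h1 : 0 ≤ Real.log 7 := Real.log_nonneg (by norm_num)
    have h2 : 0 ≤ Real.log 15 := Real.log_nonneg (by norm_num)
    positivity
  intro L s G q hq
  have hp := (fll G s).isLaw.nonneg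
  have h1 := (fll G s).isLaw.sum_one
  set Y : (fll G s).Ω → (ℕ × Sec) × ((Fin 2 → ℤ) × (Fin 2 → ℤ)) := fun w => Lab G q w.1 with hY
  set V : Fin 2 → (fll G s).Ω → Fin 1 → ℤ := fun i w _ => (fll G s).X (L + s) w i with hV
  have a1 := CH_le_add hp ((fll G s).X (L + s)) Y (fll G s).W
  have a2 : CH (fll G s).p Y (fll G s).W ≤ CH G.p (Lab G q) (fun ω => (G.T ω, G.Z ω)) := by
    rw [← CH_fst (p := G.p) (p' := (fll G s).p) (fun ω => fll_sum G s ω) (Lab G q)
      (fun ω => (G.T ω, G.Z ω))]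
    refine CH_mono_cond hp fun w w' _ _ h => ?_
    have b1 := Prod.ext_iff.mp h
    have b2 : G.T w.1 * 2 ^ s + (w.2 : ℕ) = G.T w'.1 * 2 ^ s + (w'.2 : ℕ) := b1.1
    exact Prod.ext (div_mod_eq b2).1 b1.2
  have a3 : CH G.p (Lab G q) (fun ω => (G.T ω, G.Z ω)) + CH G.p G.T G.Z ≤
      CH G.p (Lab G q) G.Z := by
    have c1 := CH_chain G.isLaw.nonneg (Lab G q) G.T G.Z
    have c2 : CH G.p (fun ω => (Lab G q ω, G.T ω)) G.Z ≤ CH G.p (Lab G q) G.Z :=
      CH_mono_left G.isLaw.nonneg fun ω ω' _ _ h => by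
        have b1 := Prod.ext_iff.mp h
        exact Prod.ext b1.1 (Prod.ext_iff.mp (Prod.ext_iff.mp b1.1).1).1
    linarith
  have a4 : CH (fll G s).p ((fll G s).X (L + s)) (fun w => (Y w, (fll G s).W w)) ≤
      CH (fll G s).p (fun w => (V 0 w, V 1 w)) (fun w => (Y w, (fll G s).W w)) :=
    CH_mono_left hp fun w w' _ _ h => by
      have b1 := Prod.ext_iff.mp (Prod.ext_iff.mp h).1
      funext i
      fin_cases i
      · exact congrFun b1.1 0
      · exact congrFun b1.2 0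
  have a5 := CH_chain hp (V 0) (V 1) (fun w => (Y w, (fll G s).W w))
  have hL : (0 : ℝ) < 2 ^ L := by positivity
  have hs : (0 : ℝ) < 2 ^ s := by positivity
  -- differences of the coordinates
  have key : ∀ w w', 0 < (fll G s).p w → 0 < (fll G s).p w' →
      (Y w, (fll G s).W w) = (Y w', (fll G s).W w') →
      |(2 : ℝ) ^ L * ((fll G s).x w 1 - (fll G s).x w' 1)| ≤ 2 ∧
      |(2 : ℝ) ^ (L + s) * ((fll G s).x w 0 - (fll G s).x w' 0)| ≤
        2 + 4 * |(2 : ℝ) ^ (L + s) * ((fll G s).x w 1 - (fll G s).x w' 1)| := by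
    intro w w' hw _ h
    have hw0 : 0 < G.p w.1 := by
      have e : G.p w.1 / 2 ^ s = (fll G s).p w := rfl
      rw [← e] at hw
      exact (div_pos_iff_of_pos_right hs).1 hw
    obtain ⟨c1, c2, c3, c4⟩ := hq w.1 hw0
    have b1 := Prod.ext_iff.mp h
    have b2 := Prod.ext_iff.mp b1.1
    have b3 : q w.1 = q w'.1 := (Prod.ext_iff.mp b2.1).2
    have b4 : (q w.1).lb (G.x w.1) = (q w'.1).lb (G.x w'.1) := (Prod.ext_iff.mp b2.2).1
    have b5 : (q w.1).lb (fun i => G.d w.1 i / 2 ^ L) =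
      (q w'.1).lb (fun i => G.d w'.1 i / 2 ^ L) := (Prod.ext_iff.mp b2.2).2
    have b6 : G.T w.1 * 2 ^ s + (w.2 : ℕ) = G.T w'.1 * 2 ^ s + (w'.2 : ℕ) :=
      (Prod.ext_iff.mp b1.2).1
    have b7 := (div_mod_eq b6).2
    rw [← b3] at b4 b5
    have k1 : ∀ i, |(q w.1).co (fun i => (fll G s).x w i - (fll G s).x w' i) i| ≤ 2 := by
      intro i
      rw [co_sub, fll_co G s (q w.1) w i, fll_co G s (q w.1) w' i, b7]
      have d1 : |(q w.1).co (G.x w.1) i - (q w.1).co (G.x w'.1) i| ≤ 1 := fl_eq (congrFun b4 i)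
      have d2 : |(q w.1).co (fun i => G.d w.1 i / 2 ^ L) i -
        (q w.1).co (fun i => G.d w'.1 i / 2 ^ L) i| ≤ 1 := fl_eq (congrFun b5 i)
      have d3 : ((w'.2 : ℕ) : ℝ) / 2 ^ s ≤ 1 := by
        rw [div_le_one hs]
        have := w'.2.2.le
        exact_mod_cast this
      have d4 : 0 ≤ ((w'.2 : ℕ) : ℝ) / 2 ^ s := by positivity
      have e1 : (q w.1).co (G.x w.1) i + ((w'.2 : ℕ) : ℝ) / 2 ^ s *
          (q w.1).co (fun i => G.d w.1 i / 2 ^ L) i - ((q w.1).co (G.x w'.1) i +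
          ((w'.2 : ℕ) : ℝ) / 2 ^ s * (q w.1).co (fun i => G.d w'.1 i / 2 ^ L) i) =
          ((q w.1).co (G.x w.1) i - (q w.1).co (G.x w'.1) i) + ((w'.2 : ℕ) : ℝ) / 2 ^ s *
          ((q w.1).co (fun i => G.d w.1 i / 2 ^ L) i -
            (q w.1).co (fun i => G.d w'.1 i / 2 ^ L) i) := by ring
      rw [e1]
      refine (abs_add_le _ _).trans ?_
      rw [abs_mul, abs_of_nonneg d4]
      have := mul_le_mul d3 d2 (abs_nonneg _) zero_le_one
      linarith
    have k2 := k1 0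
    have k3 := k1 1
    simp only [Sec.co, c1, c2, c3, ix, iy, cond_false, Matrix.cons_val_zero,
      Matrix.cons_val_one] at k2 k3
    refine ⟨k3, ?_⟩
    have e2 : (2 : ℝ) ^ (L + s) * ((fll G s).x w 0 - (fll G s).x w' 0) =
        2 ^ L * (2 ^ s * ((fll G s).x w 0 - (fll G s).x w' 0) +
          (q w.1).a * ((fll G s).x w 1 - (fll G s).x w' 1)) -
        (q w.1).a * (2 ^ L * ((fll G s).x w 1 - (fll G s).x w' 1)) := by
      rw [pow_add]
      ring
    rw [e2]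
    refine (abs_sub _ _).trans (add_le_add k2 ?_)
    rw [abs_mul]
    have c4' : |((q w.1).a : ℝ)| ≤ 4 * 2 ^ s := by exact_mod_cast c4
    refine (mul_le_mul_of_nonneg_right c4' (abs_nonneg _)).trans (le_of_eq ?_)
    rw [pow_add, abs_mul, abs_mul, abs_of_pos hL, abs_of_pos (mul_pos hL hs)]
    ring
  have a6 : CH (fll G s).p (V 1) (fun w => (Y w, (fll G s).W w)) ≤
      s * Real.log 2 + Real.log 7 := by
    have c1 := vec_const hp h1 (V 1) (fun w => (Y w, (fll G s).W w)) (c := 2 * (2 : ℝ) ^ s + 1) (by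
      intro w w' hw hw' h i
      have k := (key w w' hw hw' h).1
      show |((⌊(2 : ℝ) ^ (L + s) * (fll G s).x w 1⌋ - ⌊(2 : ℝ) ^ (L + s) * (fll G s).x w' 1⌋ : ℤ) :
        ℝ)| ≤ _
      refine fl_near ?_
      rw [← mul_sub, pow_add, mul_comm ((2 : ℝ) ^ L), mul_assoc, abs_mul, abs_of_pos hs]
      calc (2 : ℝ) ^ s * _ ≤ 2 ^ s * 2 := mul_le_mul_of_nonneg_left k hs.le
        _ = 2 * 2 ^ s := mul_comm _ _)
    have c2 := log_two_pow' s
    push_cast at c1
    linarith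
  have a7 : CH (fll G s).p (V 0) (fun w => (V 1 w, (Y w, (fll G s).W w))) ≤ Real.log 15 := by
    have c1 := vec_const hp h1 (V 0) (fun w => (V 1 w, (Y w, (fll G s).W w))) (c := 7) (by
      intro w w' hw hw' h i
      have b1 := Prod.ext_iff.mp h
      have k := (key w w' hw hw' b1.2).2
      have b2 : ⌊(2 : ℝ) ^ (L + s) * (fll G s).x w 1⌋ = ⌊(2 : ℝ) ^ (L + s) * (fll G s).x w' 1⌋ :=
        congrFun b1.1 0
      have b3 := fl_eq b2
      rw [← mul_sub] at b3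
      show |((⌊(2 : ℝ) ^ (L + s) * (fll G s).x w 0⌋ - ⌊(2 : ℝ) ^ (L + s) * (fll G s).x w' 0⌋ : ℤ) :
        ℝ)| ≤ 7
      have e0 : (7 : ℝ) = 6 + 1 := by norm_num
      rw [e0]
      refine fl_near ?_
      rw [← mul_sub]
      linarith)
    refine c1.trans (le_of_eq ?_)
    norm_num
  linarith

end Pool.KM7
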