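import Pool.Agent.H15.KM7.Stmts

/-!
# The local label potential: rows (DEAD) and (FIL)
-/

set_option autoImplicit false

namespace Pool.KM7

open Finset Real
open Pool.Agent.H49.Ent Pool.Agent.H32.Dense Pool.STK Pool.KA

namespace Dead

theorem co_sub (q : Sec) (x y : Fin 2 → ℝ) (i : Fin 2) :
    q.co (fun i => x i - y i) i = q.co x i - q.co y i := by
  fin_cases i
  · simp [Sec.co]
    ring
  · simp [Sec.co]
    ring

theorem co_smul (q : Sec) (c : ℝ) (x : Fin 2 → ℝ) (i : Fin 2) :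
    q.co (fun i => c * x i) i = c * q.co x i := by
  fin_cases i
  · simp [Sec.co]
    ring
  · simp [Sec.co]
    ring

theorem fl_eq {x y : ℝ} (h : ⌊x⌋ = ⌊y⌋) : |x - y| ≤ 1 :=
  (Int.abs_sub_lt_one_of_floor_eq_floor h).le

theorem fl_near {x y c : ℝ} (h : |x - y| ≤ c) : |((⌊x⌋ - ⌊y⌋ : ℤ) : ℝ)| ≤ c + 1 := by
  have h1 := Int.floor_le x
  have h2 := Int.lt_floor_add_one x
  have h3 := Int.floor_le y
  have h4 := Int.lt_floor_add_one y
  rw [abs_le] at h ⊢
  push_cast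
  constructor <;> linarith [h.1, h.2]

theorem vec_const {Ω T : Type} [Fintype Ω] {p : Ω → ℝ} {k : ℕ} (hp : ∀ ω, 0 ≤ p ω)
    (h1 : ∑ ω, p ω = 1) (X : Ω → Fin k → ℤ) (W : Ω → T) {c : ℝ}
    (h : ∀ ω ω', 0 < p ω → 0 < p ω' → W ω = W ω' → ∀ i, |((X ω i - X ω' i : ℤ) : ℝ)| ≤ c) :
    CH p X W ≤ k * Real.log (2 * c + 1) := by
  have h2 := CH_le_vec hp h1 X W (fun _ => c) h
  rwa [Ex_const h1] at h2

/-- The position at the beginning of the window. -/
theorem co_pos (q : Sec) (u d : Fin 2 → ℝ) (t t' s : ℝ) (i : Fin 2) :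
    q.co (fun i => u i + t' * d i) i =
      q.co (fun i => u i + t * d i) i - (t - t') * s * q.co (fun i => d i / s) i +
      (t - t') * (s * q.co (fun i => d i / s) i - q.co d i) := by
  have e1 : (fun i => u i + t' * d i) = fun i => (u i + t * d i) - ((t - t') * d i) := by
    funext j
    ring
  rw [e1, co_sub, co_smul]
  ring

theorem co_div (q : Sec) (d : Fin 2 → ℝ) {s : ℝ} (hs : s ≠ 0) (i : Fin 2) :
    s * q.co (fun i => d i / s) i = q.co d i := by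
  rw [← co_smul]
  congr 1
  funext j
  field_simp

theorem log_two_pow (L : ℕ) : Real.log (2 * ((2 : ℝ) ^ L + 1) + 1) ≤ L * Real.log 2 + Real.log 5 := by
  have h1 : (1 : ℝ) ≤ 2 ^ L := one_le_pow₀ (by norm_num)
  have h2 : 2 * ((2 : ℝ) ^ L + 1) + 1 ≤ 2 ^ L * 5 := by linarith
  have h3 := Real.log_le_log (by positivity) h2
  rwa [Real.log_mul (by positivity) (by norm_num), Real.log_pow] at h3

theorem lab_dead {w L : ℕ} (G : Fam 2 (w + L)) (q : G.Ω → Sec) :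
    CH G.p (Lab (G.trc w (Nat.le_add_right w L)) q) G.Z ≤
      CH G.p (Lab G q) G.Z + 2 * (L * Real.log 2) + (2 * Real.log 5 + 2 * Real.log 7) := by
  have hp := G.isLaw.nonneg
  have h1 := G.isLaw.sum_one
  set H : Fam 2 w := G.trc w (Nat.le_add_right w L) with hH
  set V₁ : G.Ω → Fin 2 → ℤ := fun ω => (q ω).lb (fun i => G.d ω i / 2 ^ w) with hV₁
  set V₂ : G.Ω → Fin 2 → ℤ := fun ω => (q ω).lb (H.x ω) with hV₂
  have a1 := CH_le_add hp (Lab H q) (Lab G q) G.Z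
  have a2 : CH G.p (Lab H q) (fun ω => (Lab G q ω, G.Z ω)) ≤
      CH G.p (fun ω => (V₂ ω, V₁ ω)) (fun ω => (Lab G q ω, G.Z ω)) :=
    CH_mono_left hp fun ω ω' _ _ h => by
      have b1 := Prod.ext_iff.mp h
      have b2 := Prod.ext_iff.mp b1.2
      have b3 := Prod.ext_iff.mp (Prod.ext_iff.mp b2.1).1
      have b4 := Prod.ext_iff.mp b1.1
      refine Prod.ext (Prod.ext ?_ b3.2) (Prod.ext b4.1 b4.2)
      show G.T ω / 2 ^ (w + L - w) = G.T ω' / 2 ^ (w + L - w)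
      have b5 : G.T ω = G.T ω' := b3.1
      rw [b5]
  have a3 := CH_chain hp V₂ V₁ (fun ω => (Lab G q ω, G.Z ω))
  have hw0 : (0 : ℝ) < 2 ^ w := by positivity
  have a4 : CH G.p V₁ (fun ω => (Lab G q ω, G.Z ω)) ≤ 2 * (L * Real.log 2 + Real.log 5) := by
    have c1 := vec_const hp h1 V₁ (fun ω => (Lab G q ω, G.Z ω)) (c := (2 : ℝ) ^ L + 1) (by
      intro ω ω' _ _ h i
      have b2 := Prod.ext_iff.mp (Prod.ext_iff.mp h).1
      have b3 : q ω = q ω' := (Prod.ext_iff.mp b2.1).2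
      have b4 : (q ω).lb (fun i => G.d ω i / 2 ^ (w + L)) =
        (q ω').lb (fun i => G.d ω' i / 2 ^ (w + L)) := (Prod.ext_iff.mp b2.2).2
      rw [← b3] at b4
      have b5 : |(q ω).co (fun i => G.d ω i / 2 ^ (w + L)) i -
        (q ω).co (fun i => G.d ω' i / 2 ^ (w + L)) i| ≤ 1 := fl_eq (congrFun b4 i)
      have e : ∀ v : Fin 2 → ℝ, (q ω).co (fun i => v i / 2 ^ w) i =
          2 ^ L * (q ω).co (fun i => v i / 2 ^ (w + L)) i := by
        intro v
        rw [← co_smul]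
        congr 1
        funext j
        rw [pow_add]
        field_simp
      show |((⌊(q ω).co (fun i => G.d ω i / 2 ^ w) i⌋ -
        ⌊(q ω').co (fun i => G.d ω' i / 2 ^ w) i⌋ : ℤ) : ℝ)| ≤ 2 ^ L + 1
      rw [← b3]
      refine fl_near ?_
      rw [e, e, ← mul_sub, abs_mul, abs_of_pos (by positivity : (0 : ℝ) < 2 ^ L)]
      calc (2 : ℝ) ^ L * _ ≤ 2 ^ L * 1 := mul_le_mul_of_nonneg_left b5 (by positivity)
        _ = 2 ^ L := mul_one _)
    have c2 := log_two_pow L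
    push_cast at c1
    linarith
  have a5 : CH G.p V₂ (fun ω => (V₁ ω, (Lab G q ω, G.Z ω))) ≤ 2 * Real.log 7 := by
    have c1 := vec_const hp h1 V₂ (fun ω => (V₁ ω, (Lab G q ω, G.Z ω))) (c := 3) (by
      intro ω ω' _ _ h i
      have b1 := Prod.ext_iff.mp h
      have b2 := Prod.ext_iff.mp (Prod.ext_iff.mp b1.2).1
      have b3 : q ω = q ω' := (Prod.ext_iff.mp b2.1).2
      have bT : G.T ω = G.T ω' := (Prod.ext_iff.mp b2.1).1
      have b4 : (q ω).lb (G.x ω) = (q ω').lb (G.x ω') := (Prod.ext_iff.mp b2.2).1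
      have b5 : (q ω).lb (fun i => G.d ω i / 2 ^ w) = (q ω').lb (fun i => G.d ω' i / 2 ^ w) :=
        b1.1
      rw [← b3] at b4 b5
      have b6 : |(q ω).co (G.x ω) i - (q ω).co (G.x ω') i| ≤ 1 := fl_eq (congrFun b4 i)
      have b7 : |(q ω).co (fun i => G.d ω i / 2 ^ w) i -
        (q ω).co (fun i => G.d ω' i / 2 ^ w) i| ≤ 1 := fl_eq (congrFun b5 i)
      show |((⌊(q ω).co (H.x ω) i⌋ - ⌊(q ω').co (H.x ω') i⌋ : ℤ) : ℝ)| ≤ 3
      rw [← b3]
      have e0 : (3 : ℝ) = 2 + 1 := by norm_num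
      rw [e0]
      refine fl_near ?_
      obtain ⟨θ, hθ0, hθ1, hθ⟩ : ∃ θ : ℝ, 0 ≤ θ ∧ θ ≤ 1 ∧ ∀ ω₁, G.T ω₁ = G.T ω →
          (q ω).co (H.x ω₁) i = (q ω).co (G.x ω₁) i -
            θ * (q ω).co (fun i => G.d ω₁ i / 2 ^ w) i := by
        refine ⟨((G.T ω : ℝ) / 2 ^ (w + L) - ((G.T ω / 2 ^ (w + L - w) : ℕ) : ℝ) / 2 ^ w) * 2 ^ w,
          ?_, ?_, ?_⟩
        · have g1 : ((G.T ω / 2 ^ (w + L - w) : ℕ) : ℝ) * 2 ^ L ≤ G.T ω := by
            rw [Nat.add_sub_cancel_left]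
            have := Nat.div_mul_le_self (G.T ω) (2 ^ L)
            exact_mod_cast this
          rw [pow_add]
          have g2 : (0 : ℝ) < 2 ^ L := by positivity
          have g3 : (((G.T ω : ℝ) / (2 ^ w * 2 ^ L) -
              ((G.T ω / 2 ^ (w + L - w) : ℕ) : ℝ) / 2 ^ w) * 2 ^ w) =
              ((G.T ω : ℝ) - ((G.T ω / 2 ^ (w + L - w) : ℕ) : ℝ) * 2 ^ L) / 2 ^ L := by
            field_simp
          rw [g3]
          exact div_nonneg (by linarith) g2.le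
        · have g1 : (G.T ω : ℝ) ≤ ((G.T ω / 2 ^ (w + L - w) : ℕ) : ℝ) * 2 ^ L + 2 ^ L := by
            rw [Nat.add_sub_cancel_left]
            have := (Nat.lt_div_mul_add (a := G.T ω) (b := 2 ^ L) (by positivity)).le
            exact_mod_cast this
          rw [pow_add]
          have g2 : (0 : ℝ) < 2 ^ L := by positivity
          have g3 : (((G.T ω : ℝ) / (2 ^ w * 2 ^ L) -
              ((G.T ω / 2 ^ (w + L - w) : ℕ) : ℝ) / 2 ^ w) * 2 ^ w) =
              ((G.T ω : ℝ) - ((G.T ω / 2 ^ (w + L - w) : ℕ) : ℝ) * 2 ^ L) / 2 ^ L := by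
            field_simp
          rw [g3, div_le_one g2]
          linarith
        · intro ω₁ hT
          have g1 := co_pos (q ω) (G.u ω₁) (G.d ω₁) ((G.T ω : ℝ) / 2 ^ (w + L))
            (((G.T ω / 2 ^ (w + L - w) : ℕ) : ℝ) / 2 ^ w) (2 ^ w) i
          rw [co_div (q ω) (G.d ω₁) hw0.ne' i, sub_self, mul_zero, add_zero] at g1
          have g2 : H.x ω₁ = fun i => G.u ω₁ i +
              ((G.T ω / 2 ^ (w + L - w) : ℕ) : ℝ) / 2 ^ w * G.d ω₁ i := by
            funext j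
            show G.u ω₁ j + ((G.T ω₁ / 2 ^ (w + L - w) : ℕ) : ℝ) / 2 ^ w * G.d ω₁ j = _
            rw [hT]
          have g3 : G.x ω₁ = fun i => G.u ω₁ i + (G.T ω : ℝ) / 2 ^ (w + L) * G.d ω₁ i := by
            funext j
            show G.u ω₁ j + (G.T ω₁ : ℝ) / 2 ^ (w + L) * G.d ω₁ j = _
            rw [hT]
          rw [g2, g3]
          exact g1
      rw [hθ ω rfl, hθ ω' bT.symm]
      have e1 : ((q ω).co (G.x ω) i - θ * (q ω).co (fun i => G.d ω i / 2 ^ w) i) -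
          ((q ω).co (G.x ω') i - θ * (q ω).co (fun i => G.d ω' i / 2 ^ w) i) =
          ((q ω).co (G.x ω) i - (q ω).co (G.x ω') i) -
          θ * ((q ω).co (fun i => G.d ω i / 2 ^ w) i - (q ω).co (fun i => G.d ω' i / 2 ^ w) i) := by
        ring
      rw [e1]
      refine (abs_sub _ _).trans ?_
      rw [abs_mul, abs_of_nonneg hθ0]
      have := mul_le_mul hθ1 b7 (abs_nonneg _) zero_le_one
      linarith)
    refine c1.trans (le_of_eq ?_)
    norm_num
  linarith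

theorem psh_id {Ω : Type} [Fintype Ω] (p : Ω → ℝ) : Psh p (fun ω => ω) p := by
  classical
  intro ω
  unfold law
  rw [Finset.sum_eq_single ω]
  · simp
  · intro b _ hb
    exact if_neg hb
  · intro h
    exact absurd (Finset.mem_univ ω) h

end Dead

/-- **(DEAD)** -/
theorem dead_thm : DEADStmt := by
  refine ⟨2 * Real.log 5 + 2 * Real.log 7, ?_, ?_⟩
  · have h1 : 0 ≤ Real.log 5 := Real.log_nonneg (by norm_num)
    have h2 : 0 ≤ Real.log 7 := Real.log_nonneg (by norm_num)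
    positivity
  intro κ w L R G q hq
  refine ⟨G.Ω, G.fin, G.p, G.isLaw, fun ω => ω, q, Dead.psh_id G.p, ?_, ?_⟩
  · intro ω hω
    obtain ⟨h1, h2, h3⟩ := hq ω hω
    exact ⟨by omega, h2, h3⟩
  · have h1 := Dead.lab_dead G q
    have h2 : Psi κ ((G.trc w (Nat.le_add_right w L)).ext G.p G.isLaw (fun ω => ω)) q =
        w * Real.log 2 + Ex G.p (fun ω => (2 * ((q ω).h : ℝ) + (1 - κ) * (q ω).p) * Real.log 2) -
        CH G.p (Lab (G.trc w (Nat.le_add_right w L)) q) G.Z := rfl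
    rw [h2]
    unfold Psi
    push_cast
    linarith

end Pool.KM7
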